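import Mathlib

/-!
# MP_5a34df_al : a non-semigroup grading of `M_n(K)` for every field `K` and every `n ≥ 3`

The matrix units are partitioned into classes: `{E₁₁, E₂₂}`, `{E₁₂, E₂₁}`, `{E₂₃, E₃₁}` and all
other matrix units as singletons (the code uses the indices `0, …, n - 1`).
-/

namespace Pool.Agent.Results.MP_5a34df_al.NonSemigroup

open Function

/-- A grading of the `K`-algebra `A` over the set `Γ`: a direct sum decomposition of `A` into
subspaces `comp g` (`g ∈ Γ`) together with a partial operation `op` on `Γ` (`op g h = some k`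
means that `g * h` is defined and equal to `k`) which is defined exactly for the pairs `(g, h)`
with `A_g A_h ≠ 0`, and `A_g A_h ⊆ A_{g * h}` for these pairs. -/
structure SetGrading (K A Γ : Type*) [Field K] [Ring A] [Algebra K A] where
  comp : Γ → Submodule K A
  indep : iSupIndep comp
  iSup_eq_top : iSup comp = ⊤
  op : Γ → Γ → Option Γ
  op_isSome : ∀ g h, (op g h).isSome ↔ comp g * comp h ≠ ⊥
  mul_le : ∀ g h k, op g h = some k → comp g * comp h ≤ comp k

/-- The grading is a semigroup grading: `(Γ, *)` embeds into a semigroup. -/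
def IsSemigroupGrading.{w} {K A Γ : Type*} [Field K] [Ring A] [Algebra K A]
    (G : SetGrading K A Γ) : Prop :=
  ∃ (S : Type w) (_ : Semigroup S) (ι : Γ → S), Injective ι ∧
    ∀ g h k, G.op g h = some k → ι k = ι g * ι h

/-- Class representatives of pairs of natural numbers. -/
def rep (p : ℕ × ℕ) : ℕ × ℕ :=
  if p = (1, 1) then (0, 0) else if p = (1, 0) then (0, 1) else if p = (2, 0) then (1, 2) else p

/-- The pairs `(a, b)` and `(c, d)` lie in the same class. -/
def CRel (a b c d : ℕ) : Prop :=
    (a = c ∧ b = d) ∨ (a = 0 ∧ b = 0 ∧ c = 1 ∧ d = 1) ∨ (a = 1 ∧ b = 1 ∧ c = 0 ∧ d = 0) ∨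
    (a = 0 ∧ b = 1 ∧ c = 1 ∧ d = 0) ∨ (a = 1 ∧ b = 0 ∧ c = 0 ∧ d = 1) ∨
    (a = 1 ∧ b = 2 ∧ c = 2 ∧ d = 0) ∨ (a = 2 ∧ b = 0 ∧ c = 1 ∧ d = 2)

lemma rep_eq_iff (a b c d : ℕ) : rep (a, b) = rep (c, d) ↔ CRel a b c d := by
  unfold rep CRel
  simp only [Prod.mk.injEq]
  split_ifs <;> (try simp only [Prod.mk.injEq]) <;> simp_all <;> omega

lemma crel_mul (i l j i' l' j' : ℕ) (h1 : CRel i l i' l')
    (h2 : CRel l j l' j') : CRel i j i' j' := by
  unfold CRel at h1 h2
  rcases h1 with h1 | h1 | h1 | h1 | h1 | h1 | h1 <;>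
  rcases h2 with h2 | h2 | h2 | h2 | h2 | h2 | h2 <;>
  first
    | (exfalso; omega)
    | (unfold CRel; simp [h1, h2])

/-- The key compatibility: the product of two classes lies in one class. -/
lemma rep_mul (i l j i' l' j' : ℕ) (h1 : rep (i, l) = rep (i', l'))
    (h2 : rep (l, j) = rep (l', j')) : rep (i, j) = rep (i', j') := by
  rw [rep_eq_iff] at h1 h2 ⊢
  exact crel_mul _ _ _ _ _ _ h1 h2

section

variable (K : Type*) [Field K] (n : ℕ)

/-- The class of the matrix unit `E_{ij}`. -/
def cl (i j : Fin n) : ℕ × ℕ := rep (i, j)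

/-- The index set: the classes that occur. -/
abbrev Idx : Type := {p : ℕ × ℕ // ∃ i j : Fin n, cl n i j = p}

instance : Finite (Idx n) := by
  have : Set.Finite {p : ℕ × ℕ | ∃ i j : Fin n, cl n i j = p} := by
    have : {p : ℕ × ℕ | ∃ i j : Fin n, cl n i j = p} =
        Set.range (fun q : Fin n × Fin n => cl n q.1 q.2) := by
      ext p; simp
    rw [this]
    exact Set.finite_range _
  exact this

/-- The homogeneous component of a class: the span of its matrix units. -/
def comp (g : Idx n) : Submodule K (Matrix (Fin n) (Fin n) K) where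
  carrier := {M | ∀ i j, cl n i j ≠ g.1 → M i j = 0}
  add_mem' := by
    intro a b ha hb i j h
    simp [ha i j h, hb i j h]
  zero_mem' := by
    intro i j _
    rfl
  smul_mem' := by
    intro c a ha i j h
    simp [ha i j h]

variable {n}

/-- The index of `E_{ij}`. -/
def idx (i j : Fin n) : Idx n := ⟨cl n i j, i, j, rfl⟩

lemma single_mem (i j : Fin n) (c : K) : Matrix.single i j c ∈ comp K n (idx i j) := by
  intro a b hab
  by_cases h : i = a ∧ j = b
  · obtain ⟨rfl, rfl⟩ := h
    exact absurd rfl hab
  · simp only [Matrix.single_apply]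
    rw [if_neg h]

lemma comp_ne_bot (g : Idx n) : comp K n g ≠ ⊥ := by
  obtain ⟨p, i, j, rfl⟩ := g
  intro h
  have h1 : Matrix.single i j (1 : K) ∈ comp K n (idx i j) := single_mem K i j 1
  have h2 : comp K n (idx i j) = ⊥ := h
  rw [h2, Submodule.mem_bot] at h1
  have := congrFun (congrFun h1 i) j
  simp at this

lemma comp_indep : iSupIndep (comp K n) := by
  intro g
  rw [Submodule.disjoint_def]
  intro x hx hx'
  let T : Submodule K (Matrix (Fin n) (Fin n) K) :=
    { carrier := {M | ∀ i j, cl n i j = g.1 → M i j = 0}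
      add_mem' := by
        intro a b ha hb i j h
        simp [ha i j h, hb i j h]
      zero_mem' := by
        intro i j _
        rfl
      smul_mem' := by
        intro c a ha i j h
        simp [ha i j h] }
  have hT : (⨆ j, ⨆ (_ : j ≠ g), comp K n j) ≤ T := by
    refine iSup_le fun h => iSup_le fun hne => ?_
    intro M hM i j hij
    refine hM i j ?_
    intro h'
    exact hne (Subtype.ext (h'.symm.trans hij))
  have h2 := hT hx'
  ext i j
  by_cases h : cl n i j = g.1
  · exact h2 i j h
  · exact hx i j h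

lemma comp_iSup : iSup (comp K n) = ⊤ := by
  rw [eq_top_iff]
  intro M _
  rw [Matrix.matrix_eq_sum_single M]
  refine Submodule.sum_mem _ fun i _ => Submodule.sum_mem _ fun j _ => ?_
  exact (le_iSup (comp K n) (idx i j)) (single_mem K i j _)

/-- The multiplicative relation between classes. -/
def MulRel (g h k : Idx n) : Prop :=
  ∃ i l j : Fin n, cl n i l = g.1 ∧ cl n l j = h.1 ∧ cl n i j = k.1

lemma MulRel.unique {g h k k' : Idx n} (h1 : MulRel g h k) (h2 : MulRel g h k') : k = k' := by
  obtain ⟨i, l, j, a1, a2, a3⟩ := h1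
  obtain ⟨i', l', j', b1, b2, b3⟩ := h2
  apply Subtype.ext
  rw [← a3, ← b3]
  exact rep_mul _ _ _ _ _ _ (a1.trans b1.symm) (a2.trans b2.symm)

lemma MulRel.le {g h k : Idx n} (h1 : MulRel g h k) : comp K n g * comp K n h ≤ comp K n k := by
  rw [Submodule.mul_le]
  intro M hM N hN i j hij
  rw [Matrix.mul_apply]
  refine Finset.sum_eq_zero fun l _ => ?_
  by_cases a1 : cl n i l = g.1
  · by_cases a2 : cl n l j = h.1
    · exfalso
      have : MulRel g h (idx i j) := ⟨i, l, j, a1, a2, rfl⟩
      have h3 := h1.unique this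
      rw [h3] at hij
      exact hij rfl
    · rw [hN l j a2, mul_zero]
  · rw [hM i l a1, zero_mul]

lemma exists_mulRel_iff (g h : Idx n) :
    (∃ k, MulRel g h k) ↔ comp K n g * comp K n h ≠ ⊥ := by
  constructor
  · rintro ⟨k, i, l, j, a1, a2, a3⟩ hbot
    have h1 : Matrix.single i l (1 : K) ∈ comp K n g := by
      have : g = idx i l := Subtype.ext a1.symm
      rw [this]; exact single_mem K i l 1
    have h2 : Matrix.single l j (1 : K) ∈ comp K n h := by
      have : h = idx l j := Subtype.ext a2.symm
      rw [this]; exact single_mem K l j 1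
    have h3 := Submodule.mul_mem_mul h1 h2
    rw [hbot, Submodule.mem_bot] at h3
    have := congrFun (congrFun h3 i) j
    simp at this
  · intro hne
    by_contra hno
    apply hne
    rw [eq_bot_iff, Submodule.mul_le]
    intro M hM N hN
    rw [Submodule.mem_bot]
    ext i j
    rw [Matrix.mul_apply]
    refine Finset.sum_eq_zero fun l _ => ?_
    by_cases a1 : cl n i l = g.1
    · by_cases a2 : cl n l j = h.1
      · exact absurd ⟨idx i j, i, l, j, a1, a2, rfl⟩ hno
      · rw [hN l j a2, mul_zero]
    · rw [hM i l a1, zero_mul]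

variable (n)

open Classical in
/-- The grading. -/
noncomputable def grading : SetGrading K (Matrix (Fin n) (Fin n) K) (Idx n) where
  comp := comp K n
  indep := comp_indep K
  iSup_eq_top := comp_iSup K
  op g h := if H : ∃ k, MulRel g h k then some H.choose else none
  op_isSome g h := by
    rw [← exists_mulRel_iff]
    split_ifs with H
    · simpa using H
    · simpa using H
  mul_le g h k hk := by
    split_ifs at hk with H
    have h1 := H.choose_spec
    rw [Option.some.injEq] at hk
    rw [hk] at h1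
    exact h1.le K

lemma grading_op {g h k : Idx n} (H : MulRel g h k) : (grading K n).op g h = some k := by
  have H' : ∃ k, MulRel g h k := ⟨k, H⟩
  have : (grading K n).op g h = some H'.choose := by
    simp only [grading]
    rw [dif_pos H']
  rw [this, H'.choose_spec.unique H]

end

/-- **Main result.** For every field `K` and every `n ≥ 3` the full matrix algebra `M_n(K)` has a
grading over a finite set, with all components nonzero, which is not a semigroup grading. -/
theorem result.{u, w} (K : Type u) [Field K] (n : ℕ) (hn : 3 ≤ n) :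
    ∃ (Γ : Type) (_ : Finite Γ) (G : SetGrading K (Matrix (Fin n) (Fin n) K) Γ),
      (∀ g, G.comp g ≠ ⊥) ∧ ¬ IsSemigroupGrading.{w} G := by
  refine ⟨Idx n, inferInstance, grading K n, fun g => comp_ne_bot K g, ?_⟩
  rintro ⟨S, _, ι, hinj, hι⟩
  let a : Fin n := ⟨0, by omega⟩
  let b : Fin n := ⟨1, by omega⟩
  let c : Fin n := ⟨2, by omega⟩
  have e1 : idx c a = idx b c := rfl
  have e2 : idx b a = idx a b := rfl
  have h1 : ι (idx a b) = ι (idx b c) * ι (idx b c) := by
    refine hι _ _ _ (grading_op K n ?_)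
    exact ⟨b, c, a, rfl, rfl, rfl⟩
  have h2 : ι (idx a c) = ι (idx a b) * ι (idx b c) := by
    refine hι _ _ _ (grading_op K n ?_)
    exact ⟨a, b, c, rfl, rfl, rfl⟩
  have h3 : ι (idx c b) = ι (idx b c) * ι (idx a b) := by
    refine hι _ _ _ (grading_op K n ?_)
    exact ⟨c, a, b, rfl, rfl, rfl⟩
  have h4 : ι (idx a c) = ι (idx c b) := by
    rw [h2, h3, h1, mul_assoc]
  have h5 := congrArg Subtype.val (hinj h4)
  have h6 : ((0 : ℕ), (2 : ℕ)) = (2, 1) := h5
  exact absurd h6 (by decide)

end Pool.Agent.Results.MP_5a34df_al.NonSemigroup
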